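import Pool.Agent.helper20.SOL.Spec

/-!
# AL1: the differences for disjoint transpositions commute
-/

set_option autoImplicit false

namespace Pool.Agent.SOL

open Pool.Agent.helper54.SOG Finset

open scoped BigOperators

theorem AL1_swp_comm {n : ℕ} (a b : Fin n) (x : Vec n) : swp a b x = swp b a x := by
  funext p
  unfold swp
  rw [Equiv.swap_comm]

theorem AL1_swp_sub {n : ℕ} (a b : Fin n) (x y : Vec n) :
    swp a b (x - y) = swp a b x - swp a b y := rfl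

theorem AL1_swp_eq {n : ℕ} (a b : Fin n) (x : Vec n) (h : x a = x b) : swp a b x = x := by
  funext p
  unfold swp
  rw [Equiv.swap_apply_def]
  split_ifs with h1 h2
  · rw [h1]; exact h.symm
  · rw [h2]; exact h
  · rfl

theorem AL1_swp_of_ne {n : ℕ} {a b p : Fin n} (x : Vec n) (h1 : p ≠ a) (h2 : p ≠ b) :
    swp a b x p = x p := by
  unfold swp
  rw [Equiv.swap_apply_of_ne_of_ne h1 h2]

theorem AL1_swp_mem {n k : ℕ} {x : Vec n} (hx : x ∈ VA n k) (a b : Fin n) : swp a b x ∈ VA n k := by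
  refine ⟨fun i => hx.1 _, ?_, ?_⟩
  · have h := Equiv.sum_comp (Equiv.swap a b) x
    have h2 : ∑ i, swp a b x i = ∑ i, x (Equiv.swap a b i) := rfl
    rw [h2, h]
    exact hx.2.1
  · have h := Equiv.sum_comp (Equiv.swap a b) (fun i => x i * x i)
    have h2 : dp (swp a b x) (swp a b x) = ∑ i, (fun i => x i * x i) (Equiv.swap a b i) := rfl
    rw [h2, h]
    exact hx.2.2

theorem AL1_swp_swp {n : ℕ} {i j l m : Fin n} (hil : i ≠ l) (him : i ≠ m) (hjl : j ≠ l)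
    (hjm : j ≠ m) (x : Vec n) : swp i j (swp l m x) = swp l m (swp i j x) := by
  funext p
  unfold swp
  congr 1
  by_cases h1 : p = i
  · subst h1
    rw [Equiv.swap_apply_left, Equiv.swap_apply_of_ne_of_ne hjl hjm,
      Equiv.swap_apply_of_ne_of_ne hil him, Equiv.swap_apply_left]
  · by_cases h2 : p = j
    · subst h2
      rw [Equiv.swap_apply_right, Equiv.swap_apply_of_ne_of_ne hil him,
        Equiv.swap_apply_of_ne_of_ne hjl hjm, Equiv.swap_apply_right]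
    · rw [Equiv.swap_apply_of_ne_of_ne h1 h2]
      by_cases h3 : p = l
      · subst h3
        rw [Equiv.swap_apply_left, Equiv.swap_apply_of_ne_of_ne him.symm hjm.symm]
      · by_cases h4 : p = m
        · subst h4
          rw [Equiv.swap_apply_right, Equiv.swap_apply_of_ne_of_ne hil.symm hjl.symm]
        · rw [Equiv.swap_apply_of_ne_of_ne h3 h4, Equiv.swap_apply_of_ne_of_ne h1 h2]

/-- the mixed difference -/
def AL1_E {n : ℕ} {M : Type} [AddCommGroup M] (f : Vec n → M) (i j l m : Fin n) (x : Vec n) : M :=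
  f x - f (swp i j x) - f (swp l m x) + f (swp i j (swp l m x))

theorem AL1_E_left {n : ℕ} {M : Type} [AddCommGroup M] (f : Vec n → M) (i j l m : Fin n)
    (x : Vec n) : AL1_E f j i l m x = AL1_E f i j l m x := by
  unfold AL1_E
  rw [AL1_swp_comm j i, AL1_swp_comm j i]

theorem AL1_E_right {n : ℕ} {M : Type} [AddCommGroup M] (f : Vec n → M) (i j l m : Fin n)
    (x : Vec n) : AL1_E f i j m l x = AL1_E f i j l m x := by
  unfold AL1_E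
  rw [AL1_swp_comm m l]

theorem AL1_E_exch {n : ℕ} {M : Type} [AddCommGroup M] (f : Vec n → M) {i j l m : Fin n}
    (hil : i ≠ l) (him : i ≠ m) (hjl : j ≠ l) (hjm : j ≠ m) (x : Vec n) :
    AL1_E f l m i j x = AL1_E f i j l m x := by
  unfold AL1_E
  rw [AL1_swp_swp hil him hjl hjm]
  abel

/-- the core computation -/
theorem AL1_core {n k : ℕ} {M : Type} [AddCommGroup M] (f : Vec n → M) (hf : AddOn (VA n k) f)
    {x y : Vec n} (hx : x ∈ VA n k) (hy : y ∈ VA n k) (hz : x - y ∈ VA n k) {i j l m : Fin n}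
    (hil : i ≠ l) (him : i ≠ m) (hjl : j ≠ l) (hjm : j ≠ m) (h1 : y i = y j)
    (h2 : (x - y) l = (x - y) m) : AL1_E f i j l m x = 0 := by
  have e1 : f (x - y) = f x - f y := hf.add x hx y hy hz
  have e2 : f (swp i j (x - y)) = f (swp i j x) - f y := by
    have hd : swp i j x - y = swp i j (x - y) := by
      rw [AL1_swp_sub, AL1_swp_eq i j y h1]
    have := hf.add (swp i j x) (AL1_swp_mem hx i j) y hy (by rw [hd]; exact AL1_swp_mem hz i j)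
    rwa [hd] at this
  have e3 : f (x - y) = f (swp l m x) - f (swp l m y) := by
    have hd : swp l m x - swp l m y = x - y := by
      rw [← AL1_swp_sub, AL1_swp_eq l m (x - y) h2]
    have := hf.add (swp l m x) (AL1_swp_mem hx l m) (swp l m y) (AL1_swp_mem hy l m)
      (by rw [hd]; exact hz)
    rwa [hd] at this
  have e4 : f (swp i j (x - y)) = f (swp i j (swp l m x)) - f (swp l m y) := by
    have h3 : (swp l m y) i = (swp l m y) j := by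
      rw [AL1_swp_of_ne y hil him, AL1_swp_of_ne y hjl hjm]
      exact h1
    have hd : swp i j (swp l m x) - swp l m y = swp i j (x - y) := by
      have h4 : swp i j (swp l m y) = swp l m y := AL1_swp_eq i j _ h3
      have h5 : swp l m (x - y) = x - y := AL1_swp_eq l m (x - y) h2
      calc swp i j (swp l m x) - swp l m y = swp i j (swp l m x) - swp i j (swp l m y) := by rw [h4]
        _ = swp i j (swp l m (x - y)) := by rw [AL1_swp_sub, AL1_swp_sub]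
        _ = swp i j (x - y) := by rw [h5]
    have := hf.add (swp i j (swp l m x)) (AL1_swp_mem (AL1_swp_mem hx l m) i j) (swp l m y)
      (AL1_swp_mem hy l m) (by rw [hd]; exact AL1_swp_mem hz i j)
    rwa [hd] at this
  unfold AL1_E
  have e5 : f x = f (x - y) + f y := by rw [e1]; abel
  have e6 : f (swp i j x) = f (swp i j (x - y)) + f y := by rw [e2]; abel
  have e7 : f (swp l m x) = f (x - y) + f (swp l m y) := by rw [e3]; abel
  have e8 : f (swp i j (swp l m x)) = f (swp i j (x - y)) + f (swp l m y) := by rw [e4]; abel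
  rw [e5, e6, e7, e8]
  abel

/-- it is enough to check the counts at the four pairs -/
theorem AL1_cnt (P : ℤ → ℤ → ℕ) (u₁ u₂ u₃ u₄ v₁ v₂ v₃ v₄ : ℤ)
    (h : ∀ a b : ℤ, ((u₁ = a ∧ v₁ = b) ∨ (u₂ = a ∧ v₂ = b) ∨ (u₃ = a ∧ v₃ = b) ∨
      (u₄ = a ∧ v₄ = b)) → (if u₁ = a ∧ v₁ = b then 1 else 0) +
      (if u₂ = a ∧ v₂ = b then 1 else 0) +
      (if u₃ = a ∧ v₃ = b then 1 else 0) + (if u₄ = a ∧ v₄ = b then 1 else 0) ≤ P a b) :
    ∀ a b : ℤ, (if u₁ = a ∧ v₁ = b then 1 else 0) + (if u₂ = a ∧ v₂ = b then 1 else 0) +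
      (if u₃ = a ∧ v₃ = b then 1 else 0) + (if u₄ = a ∧ v₄ = b then 1 else 0) ≤ P a b := by
  intro a b
  by_cases hab : (u₁ = a ∧ v₁ = b) ∨ (u₂ = a ∧ v₂ = b) ∨ (u₃ = a ∧ v₃ = b) ∨ (u₄ = a ∧ v₄ = b)
  · exact h a b hab
  · rw [not_or, not_or, not_or] at hab
    obtain ⟨h1, h2, h3, h4⟩ := hab
    rw [if_neg h1, if_neg h2, if_neg h3, if_neg h4]
    exact Nat.zero_le _

/-- the use of `ALP` -/
theorem AL1_use (hALP : ALP_stmt) {n k : ℕ} {M : Type} [AddCommGroup M] (f : Vec n → M)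
    (hf : AddOn (VA n k) f) (q : ℕ) (hq : q ≤ k) (hn : 3 * k ≤ n) {x : Vec n} (hx : x ∈ VA n k)
    {i j l m : Fin n} (hij : i ≠ j) (hil : i ≠ l) (him : i ≠ m) (hjl : j ≠ l) (hjm : j ≠ m)
    (hlm : l ≠ m) (u₁ u₂ u₃ u₄ v₁ v₂ v₃ v₄ : ℤ) (h1 : x i = u₁) (h2 : x j = u₂) (h3 : x l = u₃)
    (h4 : x m = u₄) (hv : v₁ = v₂) (hw : u₃ - v₃ = u₄ - v₄)
    (hc : ∀ a b : ℤ, (if u₁ = a ∧ v₁ = b then 1 else 0) + (if u₂ = a ∧ v₂ = b then 1 else 0) +
      (if u₃ = a ∧ v₃ = b then 1 else 0) + (if u₄ = a ∧ v₄ = b then 1 else 0) ≤ pA n k q a b) :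
    AL1_E f i j l m x = 0 := by
  obtain ⟨y, hy, hz, y1, y2, y3, y4⟩ := hALP.1 n k q x hq hn hx i j l m v₁ v₂ v₃ v₄ hij hil him
    hjl hjm hlm (by rw [h1, h2, h3, h4]; exact hc)
  refine AL1_core f hf hx hy hz hil him hjl hjm ?_ ?_
  · rw [y1, y2]; exact hv
  · rw [Pi.sub_apply, Pi.sub_apply, h3, h4, y3, y4]; exact hw

/-- the cases -/
theorem AL1_cases (hALP : ALP_stmt) {n k : ℕ} {M : Type} [AddCommGroup M] (f : Vec n → M)
    (hk : 2 ≤ k) (hn : 3 * k ≤ n) (hnk : ¬(n = 6 ∧ k = 2))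
    (hf : AddOn (VA n k) f) {x : Vec n} (hx : x ∈ VA n k)
    {i j l m : Fin n} (hij : i ≠ j) (hil : i ≠ l) (him : i ≠ m) (hjl : j ≠ l) (hjm : j ≠ m)
    (hlm : l ≠ m) (h : (x i = 1 ∧ x j = -1 ∧ x l = 1 ∧ x m = -1) ∨
      (x i = 1 ∧ x j = -1 ∧ x l = 1 ∧ x m = 0) ∨ (x i = 1 ∧ x j = -1 ∧ x l = 0 ∧ x m = -1) ∨
      (x i = 1 ∧ x j = 0 ∧ x l = 1 ∧ x m = 0) ∨ (x i = 0 ∧ x j = -1 ∧ x l = 0 ∧ x m = -1) ∨
      (x i = 1 ∧ x j = 0 ∧ x l = 0 ∧ x m = -1)) : AL1_E f i j l m x = 0 := by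
  rcases h with ⟨h1, h2, h3, h4⟩ | ⟨h1, h2, h3, h4⟩ | ⟨h1, h2, h3, h4⟩ | ⟨h1, h2, h3, h4⟩ |
    ⟨h1, h2, h3, h4⟩ | ⟨h1, h2, h3, h4⟩
  · refine AL1_use hALP f hf 1 (by omega) hn hx hij hil him hjl hjm hlm 1 (-1) 1 (-1) 0 0 1 (-1)
      h1 h2 h3 h4 rfl (by norm_num) ?_
    refine AL1_cnt _ _ _ _ _ _ _ _ _ ?_
    rintro a b (⟨rfl, rfl⟩ | ⟨rfl, rfl⟩ | ⟨rfl, rfl⟩ | ⟨rfl, rfl⟩) <;> simp [pA] <;> omega
  · by_cases hk3 : 3 ≤ k
    · refine AL1_use hALP f hf 1 (by omega) hn hx hij hil him hjl hjm hlm 1 (-1) 1 0 0 0 0 (-1)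
        h1 h2 h3 h4 rfl (by norm_num) ?_
      refine AL1_cnt _ _ _ _ _ _ _ _ _ ?_
      rintro a b (⟨rfl, rfl⟩ | ⟨rfl, rfl⟩ | ⟨rfl, rfl⟩ | ⟨rfl, rfl⟩) <;> simp [pA] <;> omega
    · refine AL1_use hALP f hf 1 (by omega) hn hx hij hil him hjl hjm hlm 1 (-1) 1 0 0 0 1 0
        h1 h2 h3 h4 rfl (by norm_num) ?_
      refine AL1_cnt _ _ _ _ _ _ _ _ _ ?_
      rintro a b (⟨rfl, rfl⟩ | ⟨rfl, rfl⟩ | ⟨rfl, rfl⟩ | ⟨rfl, rfl⟩) <;> simp [pA] <;> omega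
  · by_cases hk3 : 3 ≤ k
    · refine AL1_use hALP f hf 2 (by omega) hn hx hij hil him hjl hjm hlm 1 (-1) 0 (-1) 0 0 1 0
        h1 h2 h3 h4 rfl (by norm_num) ?_
      refine AL1_cnt _ _ _ _ _ _ _ _ _ ?_
      rintro a b (⟨rfl, rfl⟩ | ⟨rfl, rfl⟩ | ⟨rfl, rfl⟩ | ⟨rfl, rfl⟩) <;> simp [pA] <;> omega
    · refine AL1_use hALP f hf 1 (by omega) hn hx hij hil him hjl hjm hlm 1 (-1) 0 (-1) 0 0 0 (-1)
        h1 h2 h3 h4 rfl (by norm_num) ?_
      refine AL1_cnt _ _ _ _ _ _ _ _ _ ?_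
      rintro a b (⟨rfl, rfl⟩ | ⟨rfl, rfl⟩ | ⟨rfl, rfl⟩ | ⟨rfl, rfl⟩) <;> simp [pA] <;> omega
  · refine AL1_use hALP f hf 1 (by omega) hn hx hij hil him hjl hjm hlm 1 0 1 0 1 1 0 (-1)
      h1 h2 h3 h4 rfl (by norm_num) ?_
    refine AL1_cnt _ _ _ _ _ _ _ _ _ ?_
    rintro a b (⟨rfl, rfl⟩ | ⟨rfl, rfl⟩ | ⟨rfl, rfl⟩ | ⟨rfl, rfl⟩) <;> simp [pA] <;> omega
  · refine AL1_use hALP f hf 1 (by omega) hn hx hij hil him hjl hjm hlm 0 (-1) 0 (-1) (-1) (-1) 1 0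
      h1 h2 h3 h4 rfl (by norm_num) ?_
    refine AL1_cnt _ _ _ _ _ _ _ _ _ ?_
    rintro a b (⟨rfl, rfl⟩ | ⟨rfl, rfl⟩ | ⟨rfl, rfl⟩ | ⟨rfl, rfl⟩) <;> simp [pA] <;> omega
  · by_cases hk3 : 3 ≤ k
    · refine AL1_use hALP f hf 1 (by omega) hn hx hij hil him hjl hjm hlm 1 0 0 (-1) 1 1 1 0
        h1 h2 h3 h4 rfl (by norm_num) ?_
      refine AL1_cnt _ _ _ _ _ _ _ _ _ ?_
      rintro a b (⟨rfl, rfl⟩ | ⟨rfl, rfl⟩ | ⟨rfl, rfl⟩ | ⟨rfl, rfl⟩) <;> simp [pA] <;> omega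
    · refine AL1_use hALP f hf 1 (by omega) hn hx hij hil him hjl hjm hlm 1 0 0 (-1) 1 1 0 (-1)
        h1 h2 h3 h4 rfl (by norm_num) ?_
      refine AL1_cnt _ _ _ _ _ _ _ _ _ ?_
      rintro a b (⟨rfl, rfl⟩ | ⟨rfl, rfl⟩ | ⟨rfl, rfl⟩ | ⟨rfl, rfl⟩) <;> simp [pA] <;> omega

/-- ordered pairs -/
theorem AL1_ord (hALP : ALP_stmt) {n k : ℕ} {M : Type} [AddCommGroup M] (f : Vec n → M)
    (hk : 2 ≤ k) (hn : 3 * k ≤ n) (hnk : ¬(n = 6 ∧ k = 2))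
    (hf : AddOn (VA n k) f) {x : Vec n} (hx : x ∈ VA n k)
    {i j l m : Fin n} (hij : i ≠ j) (hil : i ≠ l) (him : i ≠ m) (hjl : j ≠ l) (hjm : j ≠ m)
    (hlm : l ≠ m) (h1 : x j < x i) (h2 : x m < x l) : AL1_E f i j l m x = 0 := by
  have bi := abs_le.1 (hx.1 i)
  have bj := abs_le.1 (hx.1 j)
  have bl := abs_le.1 (hx.1 l)
  have bm := abs_le.1 (hx.1 m)
  by_cases hA : (x i = 1 ∧ x j = -1 ∧ x l = 1 ∧ x m = -1) ∨
      (x i = 1 ∧ x j = -1 ∧ x l = 1 ∧ x m = 0) ∨ (x i = 1 ∧ x j = -1 ∧ x l = 0 ∧ x m = -1) ∨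
      (x i = 1 ∧ x j = 0 ∧ x l = 1 ∧ x m = 0) ∨ (x i = 0 ∧ x j = -1 ∧ x l = 0 ∧ x m = -1) ∨
      (x i = 1 ∧ x j = 0 ∧ x l = 0 ∧ x m = -1)
  · exact AL1_cases hALP f hk hn hnk hf hx hij hil him hjl hjm hlm hA
  · rw [← AL1_E_exch f hil him hjl hjm]
    refine AL1_cases hALP f hk hn hnk hf hx hlm hil.symm hjl.symm him.symm hjm.symm hij ?_
    omega

theorem AL1 (hALP : ALP_stmt) : AL1_stmt := by
  intro n k M _ f hk hn hnk hf x hx i j l m hij hil him hjl hjm hlm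
  show AL1_E f i j l m x = 0
  rcases lt_trichotomy (x i) (x j) with h1 | h1 | h1
  · rw [← AL1_E_left]
    rcases lt_trichotomy (x l) (x m) with h2 | h2 | h2
    · rw [← AL1_E_right]
      exact AL1_ord hALP f hk hn hnk hf hx hij.symm hjm hjl him hil hlm.symm h1 h2
    · unfold AL1_E
      rw [AL1_swp_eq l m x h2]
      abel
    · exact AL1_ord hALP f hk hn hnk hf hx hij.symm hjl hjm hil him hlm h1 h2
  · unfold AL1_E
    have h3 : swp i j (swp l m x) = swp l m x := by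
      rw [AL1_swp_swp hil him hjl hjm, AL1_swp_eq i j x h1]
    rw [h3, AL1_swp_eq i j x h1]
    abel
  · rcases lt_trichotomy (x l) (x m) with h2 | h2 | h2
    · rw [← AL1_E_right]
      exact AL1_ord hALP f hk hn hnk hf hx hij him hil hjm hjl hlm.symm h1 h2
    · unfold AL1_E
      rw [AL1_swp_eq l m x h2]
      abel
    · exact AL1_ord hALP f hk hn hnk hf hx hij hil him hjl hjm hlm h1 h2

end Pool.Agent.SOL
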