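import Pool.Agent.helper34.SOL.CE87

set_option autoImplicit false

/-! # The numbers of vectors of norm `8 k` in `E_7` (light version, row sol:LCE7) -/

namespace Pool.Agent.SOL

open Pool.Agent.helper54.SOG Finset

open scoped BigOperators

/-- entries of the parity of `a` -/
def LCE7_J (a : ℤ) : List ℤ := if a % 2 = 0 then cntE else CE87_O

lemma LCE7_nodup (a : ℤ) : (LCE7_J a).Nodup := by
  unfold LCE7_J
  split_ifs <;> decide

lemma LCE7_mem {a b : ℤ} (h : b * b ≤ 48) (h2 : b % 2 = a % 2) : b ∈ LCE7_J a := by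
  unfold LCE7_J
  split_ifs with h3
  · exact mem_cntE h (h2.trans h3)
  · exact CE87_memO (by omega) (by omega)

lemma LCE7_of_mem {a b : ℤ} (h : b ∈ LCE7_J a) : b % 2 = a % 2 := by
  unfold LCE7_J at h
  split_ifs at h with h3
  · rw [of_mem_cntE h, h3]
  · have := CE87_ofO h
    omega

/-- sums over the eight coordinates -/
lemma LCE7_sum (f : Fin 8 → ℤ) : ∑ i, f i = ∑ i : Fin 6, f i.castSucc.castSucc + f 6 + f 7 := by
  rw [Fin.sum_univ_castSucc, Fin.sum_univ_castSucc]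
  rfl

/-- the vector with the last coordinates `a, -a` -/
def LCE7_ext (y : Fin 6 → ℤ) (a : ℤ) : Fin 8 → ℤ :=
  Fin.snoc (α := fun _ => ℤ) (Fin.snoc (α := fun _ => ℤ) y a) (-a)

lemma LCE7_ext_cs (y : Fin 6 → ℤ) (a : ℤ) (i : Fin 6) : LCE7_ext y a i.castSucc.castSucc = y i := by
  unfold LCE7_ext
  rw [Fin.snoc_castSucc, Fin.snoc_castSucc]

lemma LCE7_ext_6 (y : Fin 6 → ℤ) (a : ℤ) : LCE7_ext y a 6 = a := by
  unfold LCE7_ext
  rw [show (6 : Fin 8) = (Fin.last 6).castSucc from rfl, Fin.snoc_castSucc, Fin.snoc_last]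

lemma LCE7_ext_7 (y : Fin 6 → ℤ) (a : ℤ) : LCE7_ext y a 7 = -a := by
  unfold LCE7_ext
  rw [show (7 : Fin 8) = Fin.last 7 from rfl, Fin.snoc_last]

lemma LCE7_ext_mem (y : Fin 6 → ℤ) (a : ℤ) (P : ℤ → Prop) (h1 : ∀ i, P (y i)) (h2 : P a)
    (h3 : P (-a)) : ∀ i, P (LCE7_ext y a i) := by
  intro i
  refine Fin.lastCases ?_ (fun i => ?_) i
  · have := LCE7_ext_7 y a
    rw [show (7 : Fin 8) = Fin.last 7 from rfl] at this
    rw [this]; exact h3
  · refine Fin.lastCases ?_ (fun i => ?_) i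
    · have := LCE7_ext_6 y a
      rw [show (6 : Fin 8) = (Fin.last 6).castSucc from rfl] at this
      rw [this]; exact h2
    · rw [LCE7_ext_cs]; exact h1 i

/-- the finite set -/
noncomputable def LCE7_F (k : ℕ) : Finset (Fin 8 → ℤ) := by
  classical
  exact (Fintype.piFinset fun _ : Fin 8 => (cntE ++ CE87_O).toFinset).filter (fun x => x ∈ XE7 k)

lemma LCE7_bd {k : ℕ} (hk : k ≤ 6) {x : Fin 8 → ℤ} (h3 : dp x x = 8 * k) (i : Fin 8) :
    x i * x i ≤ 48 := by
  have hk' : (k : ℤ) ≤ 6 := by exact_mod_cast hk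
  have h : x i * x i ≤ ∑ i, x i * x i :=
    Finset.single_le_sum (f := fun i => x i * x i) (fun i _ => mul_self_nonneg _)
      (Finset.mem_univ i)
  rw [← dp, h3] at h
  linarith

lemma LCE7_memF {k : ℕ} (hk : k ≤ 6) (x : Fin 8 → ℤ) : x ∈ LCE7_F k ↔ x ∈ XE7 k := by
  classical
  unfold LCE7_F
  rw [Finset.mem_filter]
  refine ⟨fun h => h.2, fun h => ⟨?_, h⟩⟩
  rw [Fintype.mem_piFinset]
  intro i
  rw [List.mem_toFinset, List.mem_append]
  have hb := LCE7_bd hk h.2.2 i
  rcases Int.emod_two_eq_zero_or_one (x i) with h0 | h0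
  · exact Or.inl (mem_cntE hb h0)
  · exact Or.inr (CE87_memO (by omega) h0)

/-- the possible values of the coordinate `6` -/
def LCE7_A : List ℤ := [-4, -3, -2, -1, 0, 1, 2, 3, 4]

/-- the number of vectors with the coordinate `6` equal to `a` -/
def LCE7_n (k : ℕ) (a : ℤ) : ℕ :=
  if 2 * (a.natAbs * a.natAbs) ≤ 8 * k then
    (if a % 2 = 0 then CE87_L 4 CE87_E6 (8 * k - 2 * (a.natAbs * a.natAbs)) 0
      else CE87_L 8 CE87_O6 (8 * k - 2 * (a.natAbs * a.natAbs)) 0) else 0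

lemma LCE7_G (a : ℤ) (k : ℕ) (hk : k ≤ 6) (h : 2 * (a.natAbs * a.natAbs) ≤ 8 * k) :
    cntG (LCE7_J a) cntD 6 (8 * k - 2 * (a.natAbs * a.natAbs)) 0 =
    if a % 2 = 0 then CE87_L 4 CE87_E6 (8 * k - 2 * (a.natAbs * a.natAbs)) 0
      else CE87_L 8 CE87_O6 (8 * k - 2 * (a.natAbs * a.natAbs)) 0 := by
  unfold LCE7_J
  by_cases ha : a % 2 = 0
  · rw [if_pos ha, if_pos ha]
    obtain ⟨b, hb⟩ : ∃ b : ℕ, a.natAbs = 2 * b := ⟨a.natAbs / 2, by omega⟩
    have e : 2 * (a.natAbs * a.natAbs) = 8 * (b * b) := by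
      rw [hb]
      ring
    refine CE87_E6' _ 0 ⟨by omega, ?_, by norm_num, by norm_num⟩
    rw [e] at h ⊢
    omega
  · rw [if_neg ha, if_neg ha]
    obtain ⟨b, hb⟩ : ∃ b : ℕ, a.natAbs = 2 * b + 1 := ⟨a.natAbs / 2, by omega⟩
    have e : 2 * (a.natAbs * a.natAbs) = 8 * (b * b + b) + 2 := by
      rw [hb]
      ring
    refine CE87_O6' _ 0 ⟨by omega, ?_, by norm_num, by norm_num⟩
    rw [e] at h ⊢
    omega

lemma LCE7_card (k : ℕ) (hk : k ≤ 6) : (XE7 k).ncard = (LCE7_A.map (LCE7_n k)).sum := by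
  classical
  have hk' : (k : ℤ) ≤ 6 := by exact_mod_cast hk
  have h1 : XE7 k = (LCE7_F k : Set (Fin 8 → ℤ)) := by
    ext x; rw [Finset.mem_coe, LCE7_memF hk]
  rw [h1, Set.ncard_coe_finset]
  have hmaps : ((LCE7_F k : Finset (Fin 8 → ℤ)) : Set (Fin 8 → ℤ)).MapsTo
      (fun x => x 6) (LCE7_A.toFinset : Set ℤ) := by
    intro x hx
    rw [Finset.mem_coe, LCE7_memF hk] at hx
    obtain ⟨-, h2, h3⟩ := hx
    have h4 : ∑ i, x i * x i = 8 * k := h3
    rw [LCE7_sum (fun i => x i * x i)] at h4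
    have h5 : 0 ≤ ∑ i : Fin 6, x i.castSucc.castSucc * x i.castSucc.castSucc :=
      Finset.sum_nonneg fun i _ => mul_self_nonneg _
    have h6 : x 7 = -x 6 := by linarith
    rw [h6] at h4
    have h7 : x 6 * x 6 ≤ 24 := by nlinarith
    have h8 : x 6 ≤ 4 := by nlinarith
    have h9 : -4 ≤ x 6 := by nlinarith
    rw [Finset.mem_coe, List.mem_toFinset]
    show x 6 ∈ LCE7_A
    simp only [LCE7_A, List.mem_cons, List.not_mem_nil, or_false]
    omega
  rw [Finset.card_eq_sum_card_fiberwise hmaps, List.sum_toFinset _ (by decide)]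
  congr 1
  refine List.map_congr_left fun a _ => ?_
  have haa : ((2 * (a.natAbs * a.natAbs) : ℕ) : ℤ) = 2 * (a * a) := by
    rw [Nat.cast_mul, Nat.cast_mul, Int.natCast_natAbs, abs_mul_abs_self]; rfl
  unfold LCE7_n
  by_cases h : 2 * (a.natAbs * a.natAbs) ≤ 8 * k
  · rw [if_pos h, ← LCE7_G a k hk h, ← cnt_card _ (LCE7_nodup a)]
    refine Finset.card_nbij' (fun x i => x i.castSucc.castSucc) (fun y => LCE7_ext y a) ?_ ?_ ?_ ?_
    · intro x hx
      rw [Finset.mem_coe, Finset.mem_filter, LCE7_memF hk] at hx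
      obtain ⟨⟨⟨h2, h3⟩, h4, h5⟩, h6⟩ := hx
      have h7 : x 7 = -a := by rw [← h6]; linarith
      rw [Finset.mem_coe, mem_cntF]
      have h8 : ∑ i, x i * x i = 8 * k := h5
      rw [LCE7_sum (fun i => x i * x i)] at h8
      rw [LCE7_sum] at h3
      simp only [h6, h7] at h8 h3
      refine ⟨fun i => LCE7_mem (LCE7_bd hk h5 _) ?_, ?_, ?_⟩
      · rw [← h6]; exact h2 _ _
      · rw [Nat.cast_sub h, haa]
        push_cast
        linarith
      · push_cast
        rw [add_zero]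
        have e : ∑ i : Fin 6, x i.castSucc.castSucc + a + -a = ∑ i : Fin 6, x i.castSucc.castSucc := by
          ring
        rwa [e] at h3
    · intro y hy
      rw [Finset.mem_coe, mem_cntF] at hy
      obtain ⟨h2, h3, h4⟩ := hy
      rw [Nat.cast_sub h, haa] at h3
      push_cast at h3 h4
      rw [Finset.mem_coe, Finset.mem_filter, LCE7_memF hk]
      have hpar : ∀ i, LCE7_ext y a i % 2 = a % 2 := by
        refine LCE7_ext_mem y a (fun b => b % 2 = a % 2) (fun i => LCE7_of_mem (h2 i)) rfl ?_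
        omega
      refine ⟨⟨⟨fun i j => (hpar i).trans (hpar j).symm, ?_⟩, ?_, ?_⟩, LCE7_ext_6 y a⟩
      · show (∑ i, LCE7_ext y a i) % 4 = 0
        rw [LCE7_sum, LCE7_ext_6, LCE7_ext_7]
        simp only [LCE7_ext_cs]
        have e : ∑ i : Fin 6, y i + a + -a = ∑ i : Fin 6, y i + 0 := by ring
        rwa [e]
      · show LCE7_ext y a 6 + LCE7_ext y a 7 = 0
        rw [LCE7_ext_6, LCE7_ext_7]; ring
      · show ∑ i, LCE7_ext y a i * LCE7_ext y a i = 8 * k
        rw [LCE7_sum (fun i => LCE7_ext y a i * LCE7_ext y a i)]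
        simp only [LCE7_ext_cs, LCE7_ext_6, LCE7_ext_7]
        rw [h3]; ring
    · intro x hx
      rw [Finset.mem_coe, Finset.mem_filter, LCE7_memF hk] at hx
      obtain ⟨⟨-, h4, -⟩, h6⟩ := hx
      show LCE7_ext (fun i => x i.castSucc.castSucc) a = x
      funext i
      refine Fin.lastCases ?_ (fun i => ?_) i
      · have := LCE7_ext_7 (fun i => x i.castSucc.castSucc) a
        rw [show (7 : Fin 8) = Fin.last 7 from rfl] at this
        rw [this]
        have e : x (Fin.last 7) = x 7 := rfl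
        rw [e, ← h6]; linarith
      · refine Fin.lastCases ?_ (fun i => ?_) i
        · have := LCE7_ext_6 (fun i => x i.castSucc.castSucc) a
          rw [show (6 : Fin 8) = (Fin.last 6).castSucc from rfl] at this
          rw [this]
          exact h6.symm
        · rw [LCE7_ext_cs]
    · intro y _
      funext i
      exact LCE7_ext_cs y a i
  · rw [if_neg h, Finset.card_eq_zero, Finset.eq_empty_iff_forall_notMem]
    intro x hx
    rw [Finset.mem_filter, LCE7_memF hk] at hx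
    obtain ⟨⟨-, h4, h5⟩, h6⟩ := hx
    have h8 : ∑ i, x i * x i = 8 * k := h5
    rw [LCE7_sum (fun i => x i * x i)] at h8
    have h7 : x 7 = -a := by rw [← h6]; linarith
    simp only [h6, h7] at h8
    have h9 : 0 ≤ ∑ i : Fin 6, x i.castSucc.castSucc * x i.castSucc.castSucc :=
      Finset.sum_nonneg fun i _ => mul_self_nonneg _
    apply h
    have h10 : ((2 * (a.natAbs * a.natAbs) : ℕ) : ℤ) ≤ ((8 * k : ℕ) : ℤ) := by
      rw [haa]; push_cast; linarith
    exact_mod_cast h10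

theorem CE7L : CE7_stmt := by
  refine ⟨?_, ?_, ?_, ?_, ?_, ?_⟩
  · exact (LCE7_card 1 (by norm_num)).trans (by decide +kernel)
  · exact (LCE7_card 2 (by norm_num)).trans (by decide +kernel)
  · exact (LCE7_card 3 (by norm_num)).trans (by decide +kernel)
  · exact (LCE7_card 4 (by norm_num)).trans (by decide +kernel)
  · exact (LCE7_card 5 (by norm_num)).trans (by decide +kernel)
  · exact (LCE7_card 6 (by norm_num)).trans (by decide +kernel)

end Pool.Agent.SOL
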