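import Pool.Agent.helper34.SOL.CE87

set_option autoImplicit false

/-! # The numbers of vectors of norm `8 k` in `E_8`, light version (row sol:LCE8) -/

namespace Pool.Agent.SOL

open Pool.Agent.helper54.SOG Finset

open scoped BigOperators

theorem LCE8_e8 (m : ℕ) (h : m < 57) (h4 : m % 4 = 0) :
    cntG cntE cntD 8 m 0 = cntG cntE (CE87_L 4 CE87_E6) 2 m 0 := by
  rw [show (8 : ℕ) = 6 + 2 from rfl, cntG_add]
  exact CE87_congr cntE (cntG cntE cntD 6) (CE87_L 4 CE87_E6) CE87_PE CE87_hPE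
    CE87_E6' 2 m 0 ⟨h, h4, by norm_num, by norm_num⟩

theorem LCE8_o8 (m : ℕ) (h : m < 57) (h8 : m % 8 = 0) :
    cntG CE87_O cntD 8 m 0 = cntG CE87_O (CE87_L 8 CE87_O6) 2 m 0 := by
  rw [show (8 : ℕ) = 6 + 2 from rfl, cntG_add]
  exact CE87_congr CE87_O (cntG CE87_O cntD 6) (CE87_L 8 CE87_O6) (CE87_PO 6) (CE87_hPO 6)
    CE87_O6' 2 m 0 ⟨h, by omega, by norm_num, by norm_num⟩

theorem LCE8_eq (k : ℕ) (hk : k ≤ 6) : XE8 k =
    ((cntF cntE 8 ((8 * k : ℕ) : ℤ) ((0 : ℕ) : ℤ) ∪ cntF CE87_O 8 ((8 * k : ℕ) : ℤ) ((0 : ℕ) : ℤ) :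
      Finset (Fin 8 → ℤ)) : Set (Fin 8 → ℤ)) := by
  ext x
  rw [Finset.mem_coe, Finset.mem_union, mem_cntF, mem_cntF]
  have hk' : (k : ℤ) ≤ 6 := by exact_mod_cast hk
  constructor
  · rintro ⟨⟨h1, h2⟩, h3⟩
    have h3' : ∑ i, x i * x i = ((8 * k : ℕ) : ℤ) := by
      rw [← dp, h3]
      push_cast
      ring
    have hle : ∀ i, x i * x i ≤ 56 := by
      intro i
      have : x i * x i ≤ ∑ i, x i * x i :=
        Finset.single_le_sum (f := fun i => x i * x i) (fun i _ => mul_self_nonneg _)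
          (Finset.mem_univ i)
      rw [h3'] at this
      push_cast at this
      linarith
    have h4 : (∑ i, x i + ((0 : ℕ) : ℤ)) % 4 = 0 := by
      push_cast
      rw [add_zero]
      exact h2
    rcases Int.emod_two_eq_zero_or_one (x 0) with h0 | h0
    · left
      exact ⟨fun i => CE87_memE (hle i) ((h1 i 0).trans h0), h3', h4⟩
    · right
      exact ⟨fun i => CE87_memO (hle i) ((h1 i 0).trans h0), h3', h4⟩
  · rintro (⟨h1, h2, h3⟩ | ⟨h1, h2, h3⟩)
    · refine ⟨⟨fun i j => ?_, ?_⟩, ?_⟩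
      · rw [of_mem_cntE (h1 i), of_mem_cntE (h1 j)]
      · push_cast at h3
        rwa [add_zero] at h3
      · rw [dp, h2]
        push_cast
        ring
    · refine ⟨⟨fun i j => ?_, ?_⟩, ?_⟩
      · rw [CE87_ofO (h1 i), CE87_ofO (h1 j)]
      · push_cast at h3
        rwa [add_zero] at h3
      · rw [dp, h2]
        push_cast
        ring

theorem LCE8_card (k : ℕ) (hk : k ≤ 6) : (XE8 k).ncard =
    cntG cntE (CE87_L 4 CE87_E6) 2 (8 * k) 0 + cntG CE87_O (CE87_L 8 CE87_O6) 2 (8 * k) 0 := by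
  have hd : Disjoint (cntF cntE 8 ((8 * k : ℕ) : ℤ) ((0 : ℕ) : ℤ))
      (cntF CE87_O 8 ((8 * k : ℕ) : ℤ) ((0 : ℕ) : ℤ)) := by
    rw [Finset.disjoint_left]
    intro x hx hy
    rw [mem_cntF] at hx hy
    have h1 := of_mem_cntE (hx.1 0)
    have h2 := CE87_ofO (hy.1 0)
    omega
  rw [LCE8_eq k hk, Set.ncard_coe_finset]
  have e1 := (cnt_card cntE (by decide) 8 (8 * k) 0).trans (LCE8_e8 (8 * k) (by omega) (by omega))
  have e2 := (cnt_card CE87_O (by decide) 8 (8 * k) 0).trans (LCE8_o8 (8 * k) (by omega) (by omega))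
  exact (Finset.card_union_of_disjoint hd).trans (congrArg₂ (fun a b : ℕ => a + b) e1 e2)

theorem CE8L : CE8_stmt := by
  refine ⟨?_, ?_, ?_, ?_, ?_, ?_⟩
  · exact (LCE8_card 1 (by norm_num)).trans (by decide +kernel)
  · exact (LCE8_card 2 (by norm_num)).trans (by decide +kernel)
  · exact (LCE8_card 3 (by norm_num)).trans (by decide +kernel)
  · exact (LCE8_card 4 (by norm_num)).trans (by decide +kernel)
  · exact (LCE8_card 5 (by norm_num)).trans (by decide +kernel)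
  · exact (LCE8_card 6 (by norm_num)).trans (by decide +kernel)

end Pool.Agent.SOL
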