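import Pool.Agent.helper20.SOL.SpecN

set_option autoImplicit false

namespace Pool.Agent.SOL

open Pool.Agent.helper54.SOG Finset

open scoped BigOperators

/-- bounded integer vectors with given square sum and bounded sum of absolute values -/
def ND_W (n : ℕ) (m l : ℤ) : Set (Vec n) := {x | (∀ i, |x i| ≤ 2) ∧ dp x x = m ∧ l1 x ≤ l}

/-- their number -/
def ND_w : ℕ → ℤ → ℤ → ℕ
  | 0, m, l => if m = 0 ∧ 0 ≤ l then 1 else 0
  | n + 1, m, l => ND_w n m l + 2 * ND_w n (m - 1) (l - 1) + 2 * ND_w n (m - 4) (l - 2)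

/-- vectors with given first entry -/
def ND_c {n : ℕ} (v : ℤ) (S : Set (Vec n)) : Set (Vec (n + 1)) :=
  {x | x 0 = v ∧ (fun i : Fin n => x i.succ) ∈ S}

theorem ND_c_eq {n : ℕ} (v : ℤ) (S : Set (Vec n)) :
    ND_c v S = (fun y : Vec n => (Fin.cons v y : Vec (n + 1))) '' S := by
  ext x
  constructor
  · rintro ⟨h1, h2⟩
    refine ⟨_, h2, ?_⟩
    funext i
    refine Fin.cases ?_ (fun j => ?_) i
    · show v = x 0
      exact h1.symm
    · rfl
  · rintro ⟨y, hy, rfl⟩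
    exact ⟨rfl, hy⟩

theorem ND_c_finite {n : ℕ} (v : ℤ) (S : Set (Vec n)) (hS : S.Finite) : (ND_c v S).Finite := by
  rw [ND_c_eq]
  exact hS.image _

theorem ND_c_ncard {n : ℕ} (v : ℤ) (S : Set (Vec n)) : (ND_c v S).ncard = S.ncard := by
  rw [ND_c_eq]
  apply Set.ncard_image_of_injective
  intro y z h
  funext i
  exact congrFun h i.succ

theorem ND_c_disj {n : ℕ} (v v' : ℤ) (hv : v ≠ v') (S S' : Set (Vec n)) :
    Disjoint (ND_c v S) (ND_c v' S') := by
  rw [Set.disjoint_left]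
  rintro x ⟨h1, _⟩ ⟨h2, _⟩
  exact hv (h1.symm.trans h2)

theorem ND_step (n : ℕ) (m l : ℤ) : ND_W (n + 1) m l =
    ND_c 0 (ND_W n m l) ∪ (ND_c 1 (ND_W n (m - 1) (l - 1)) ∪ (ND_c (-1) (ND_W n (m - 1) (l - 1)) ∪
      (ND_c 2 (ND_W n (m - 4) (l - 2)) ∪ ND_c (-2) (ND_W n (m - 4) (l - 2))))) := by
  ext x
  set y : Vec n := fun i => x i.succ with hy
  have h1 : x ∈ ND_W (n + 1) m l ↔ |x 0| ≤ 2 ∧ (∀ i, |y i| ≤ 2) ∧ x 0 * x 0 + dp y y = m ∧
      |x 0| + l1 y ≤ l := by
    show (∀ i, |x i| ≤ 2) ∧ dp x x = m ∧ l1 x ≤ l ↔ _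
    rw [Fin.forall_fin_succ]
    have e1 : dp x x = x 0 * x 0 + dp y y := Fin.sum_univ_succ _
    have e2 : l1 x = |x 0| + l1 y := Fin.sum_univ_succ _
    rw [e1, e2, and_assoc]
  have h2 : ∀ (v m' l' : ℤ), x ∈ ND_c v (ND_W n m' l') ↔
      x 0 = v ∧ (∀ i, |y i| ≤ 2) ∧ dp y y = m' ∧ l1 y ≤ l' := fun _ _ _ => Iff.rfl
  rw [h1]
  simp only [Set.mem_union, h2]
  constructor
  · rintro ⟨a, b, c, d⟩
    have h3 := abs_le.1 a
    have h4 : x 0 = 0 ∨ x 0 = 1 ∨ x 0 = -1 ∨ x 0 = 2 ∨ x 0 = -2 := by omega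
    rcases h4 with h | h | h | h | h
    · refine Or.inl ⟨h, b, ?_, ?_⟩
      · rw [h] at c
        linarith
      · rw [h] at d
        simpa using d
    · refine Or.inr (Or.inl ⟨h, b, ?_, ?_⟩)
      · rw [h] at c
        linarith
      · rw [h] at d
        norm_num at d
        linarith
    · refine Or.inr (Or.inr (Or.inl ⟨h, b, ?_, ?_⟩))
      · rw [h] at c
        linarith
      · rw [h] at d
        norm_num at d
        linarith
    · refine Or.inr (Or.inr (Or.inr (Or.inl ⟨h, b, ?_, ?_⟩)))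
      · rw [h] at c
        linarith
      · rw [h] at d
        norm_num at d
        linarith
    · refine Or.inr (Or.inr (Or.inr (Or.inr ⟨h, b, ?_, ?_⟩)))
      · rw [h] at c
        linarith
      · rw [h] at d
        norm_num at d
        linarith
  · rintro (⟨h, b, c, d⟩ | ⟨h, b, c, d⟩ | ⟨h, b, c, d⟩ | ⟨h, b, c, d⟩ | ⟨h, b, c, d⟩)
    · rw [h]
      refine ⟨by norm_num, b, by linarith, ?_⟩
      norm_num
      linarith
    · rw [h]
      refine ⟨by norm_num, b, by linarith, ?_⟩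
      norm_num
      linarith
    · rw [h]
      refine ⟨by norm_num, b, by linarith, ?_⟩
      norm_num
      linarith
    · rw [h]
      refine ⟨by norm_num, b, by linarith, ?_⟩
      norm_num
      linarith
    · rw [h]
      refine ⟨by norm_num, b, by linarith, ?_⟩
      norm_num
      linarith

theorem ND_fin (n : ℕ) : ∀ m l : ℤ, (ND_W n m l).Finite := by
  induction n with
  | zero => intro m l; exact Set.toFinite _
  | succ n ih =>
    intro m l
    rw [ND_step]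
    exact (ND_c_finite _ _ (ih _ _)).union ((ND_c_finite _ _ (ih _ _)).union
      ((ND_c_finite _ _ (ih _ _)).union ((ND_c_finite _ _ (ih _ _)).union
        (ND_c_finite _ _ (ih _ _)))))

theorem ND_count (n : ℕ) : ∀ m l : ℤ, (ND_W n m l).ncard = ND_w n m l := by
  induction n with
  | zero =>
    intro m l
    have h0 : ∀ x : Vec 0, dp x x = 0 := fun x => by simp [dp]
    have h1 : ∀ x : Vec 0, l1 x = 0 := fun x => by simp [l1]
    by_cases h : m = 0 ∧ 0 ≤ l
    · have h2 : ND_W 0 m l = {fun i => i.elim0} := by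
        ext x
        constructor
        · intro _
          exact Subsingleton.elim _ _
        · intro _
          refine ⟨fun i => i.elim0, ?_, ?_⟩
          · rw [h0, h.1]
          · rw [h1]
            exact h.2
      rw [h2, Set.ncard_singleton]
      show 1 = if m = 0 ∧ 0 ≤ l then 1 else 0
      rw [if_pos h]
    · have h2 : ND_W 0 m l = ∅ := by
        rw [Set.eq_empty_iff_forall_notMem]
        rintro x ⟨_, h3, h4⟩
        rw [h0] at h3
        rw [h1] at h4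
        exact h ⟨h3.symm, h4⟩
      rw [h2, Set.ncard_empty]
      show 0 = if m = 0 ∧ 0 ≤ l then 1 else 0
      rw [if_neg h]
  | succ n ih =>
    intro m l
    have f1 := ND_c_finite 0 _ (ND_fin n m l)
    have f2 := ND_c_finite 1 _ (ND_fin n (m - 1) (l - 1))
    have f3 := ND_c_finite (-1) _ (ND_fin n (m - 1) (l - 1))
    have f4 := ND_c_finite 2 _ (ND_fin n (m - 4) (l - 2))
    have f5 := ND_c_finite (-2) _ (ND_fin n (m - 4) (l - 2))
    have d45 := ND_c_disj 2 (-2) (by norm_num) (ND_W n (m - 4) (l - 2)) (ND_W n (m - 4) (l - 2))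
    have d3 : Disjoint (ND_c (-1) (ND_W n (m - 1) (l - 1)))
        (ND_c 2 (ND_W n (m - 4) (l - 2)) ∪ ND_c (-2) (ND_W n (m - 4) (l - 2))) :=
      Set.disjoint_union_right.2 ⟨ND_c_disj _ _ (by norm_num) _ _, ND_c_disj _ _ (by norm_num) _ _⟩
    have d2 : Disjoint (ND_c 1 (ND_W n (m - 1) (l - 1))) (ND_c (-1) (ND_W n (m - 1) (l - 1)) ∪
        (ND_c 2 (ND_W n (m - 4) (l - 2)) ∪ ND_c (-2) (ND_W n (m - 4) (l - 2)))) :=
      Set.disjoint_union_right.2 ⟨ND_c_disj _ _ (by norm_num) _ _,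
        Set.disjoint_union_right.2 ⟨ND_c_disj _ _ (by norm_num) _ _,
          ND_c_disj _ _ (by norm_num) _ _⟩⟩
    have d1 : Disjoint (ND_c 0 (ND_W n m l)) (ND_c 1 (ND_W n (m - 1) (l - 1)) ∪
        (ND_c (-1) (ND_W n (m - 1) (l - 1)) ∪
        (ND_c 2 (ND_W n (m - 4) (l - 2)) ∪ ND_c (-2) (ND_W n (m - 4) (l - 2))))) :=
      Set.disjoint_union_right.2 ⟨ND_c_disj _ _ (by norm_num) _ _,
        Set.disjoint_union_right.2 ⟨ND_c_disj _ _ (by norm_num) _ _,
          Set.disjoint_union_right.2 ⟨ND_c_disj _ _ (by norm_num) _ _,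
            ND_c_disj _ _ (by norm_num) _ _⟩⟩⟩
    rw [ND_step, Set.ncard_union_eq d1 f1 (f2.union (f3.union (f4.union f5))),
      Set.ncard_union_eq d2 f2 (f3.union (f4.union f5)), Set.ncard_union_eq d3 f3 (f4.union f5),
      Set.ncard_union_eq d45 f4 f5]
    simp only [ND_c_ncard, ih]
    show _ = ND_w n m l + 2 * ND_w n (m - 1) (l - 1) + 2 * ND_w n (m - 4) (l - 2)
    ring

theorem ND_VD (n k : ℕ) : (VD n k).ncard = ND_w n (2 * (k : ℤ)) (n : ℤ) :=
  ND_count n (2 * (k : ℤ)) (n : ℤ)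

theorem ND : ND_stmt := by
  unfold ND_stmt
  simp only [ND_VD]
  decide +kernel

end Pool.Agent.SOL
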