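import Pool.Agent.helper20.SOL.SpecE

set_option autoImplicit false

namespace Pool.Agent.SOL

open Pool.Agent.helper54.SOG Finset

open scoped BigOperators

theorem SOE_ev (z : ℤ) (h : z % 2 = 0) : (8 : ℤ) ∣ z * z - 2 * z := by
  obtain ⟨y, rfl⟩ : ∃ y, z = 2 * y := ⟨z / 2, by omega⟩
  rcases Int.emod_two_eq_zero_or_one y with h1 | h1
  · obtain ⟨w, rfl⟩ : ∃ w, y = 2 * w := ⟨y / 2, by omega⟩
    exact ⟨w * (2 * w - 1), by ring⟩
  · obtain ⟨w, rfl⟩ : ∃ w, y = 2 * w + 1 := ⟨y / 2, by omega⟩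
    exact ⟨w * (2 * w + 1), by ring⟩

theorem SOE_od (z : ℤ) (h : z % 2 = 1) : (8 : ℤ) ∣ z * z - 1 := by
  obtain ⟨y, rfl⟩ : ∃ y, z = 2 * y + 1 := ⟨z / 2, by omega⟩
  rcases Int.emod_two_eq_zero_or_one y with h1 | h1
  · obtain ⟨w, rfl⟩ : ∃ w, y = 2 * w := ⟨y / 2, by omega⟩
    exact ⟨w * (2 * w + 1), by ring⟩
  · obtain ⟨w, rfl⟩ : ∃ w, y = 2 * w + 1 := ⟨y / 2, by omega⟩
    exact ⟨(2 * w + 1) * (w + 1), by ring⟩

theorem SOE_dvd (a : Vec 8) (h : a ∈ EL) : (8 : ℤ) ∣ dp a a := by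
  obtain ⟨h1, h2⟩ := h
  rcases Int.emod_two_eq_zero_or_one (a 0) with h0 | h0
  · have h3 : (8 : ℤ) ∣ ∑ i : Fin 8, (a i * a i - 2 * a i) :=
      Finset.dvd_sum fun i _ => SOE_ev (a i) (by rw [h1 i 0]; exact h0)
    rw [Finset.sum_sub_distrib, ← Finset.mul_sum] at h3
    have h4 : dp a a = ∑ i : Fin 8, a i * a i := rfl
    rw [← h4] at h3
    omega
  · have h3 : (8 : ℤ) ∣ ∑ i : Fin 8, (a i * a i - 1) :=
      Finset.dvd_sum fun i _ => SOE_od (a i) (by rw [h1 i 0]; exact h0)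
    rw [Finset.sum_sub_distrib, Finset.sum_const, Finset.card_univ, Fintype.card_fin] at h3
    have h4 : dp a a = ∑ i : Fin 8, a i * a i := rfl
    rw [← h4] at h3
    have h5 : (8 : ℕ) • (1 : ℤ) = 8 := by norm_num
    rw [h5] at h3
    omega

theorem SOE_neg (b : Vec 8) (hb : b ∈ EL) : -b ∈ EL := by
  obtain ⟨h1, h2⟩ := hb
  refine ⟨fun i j => ?_, ?_⟩
  · have := h1 i j
    rw [Pi.neg_apply, Pi.neg_apply]
    omega
  · have h3 : ∑ i, (-b) i = -∑ i, b i := by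
      rw [← Finset.sum_neg_distrib]
      rfl
    rw [h3]
    omega

theorem SOE_sub (a b : Vec 8) (ha : a ∈ EL) (hb : b ∈ EL) : a - b ∈ EL := by
  obtain ⟨h1, h2⟩ := hb
  obtain ⟨h3, h4⟩ := ha
  refine ⟨fun i j => ?_, ?_⟩
  · have := h1 i j
    have := h3 i j
    rw [Pi.sub_apply, Pi.sub_apply]
    omega
  · have h5 : ∑ i, (a - b) i = ∑ i, a i - ∑ i, b i := by
      rw [← Finset.sum_sub_distrib]
      rfl
    rw [h5]
    omega

theorem SOE_add_add (a b : Vec 8) : dp (a + b) (a + b) = dp a a + 2 * dp a b + dp b b := by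
  have h := dp_sub_sub a (-b)
  rw [dp_neg_neg, dp_neg_right, sub_neg_eq_add] at h
  rw [h]
  ring

theorem SOE_four (a b : Vec 8) (ha : a ∈ EL) (hb : b ∈ EL) : (4 : ℤ) ∣ dp a b := by
  have h1 := dp_sub_sub a b
  have h2 := SOE_dvd a ha
  have h3 := SOE_dvd b hb
  have h4 := SOE_dvd (a - b) (SOE_sub a b ha hb)
  omega

theorem SOE_gen (P : Set (Vec 8)) (L : Vec 8 → Prop) (hP : ∀ x, x ∈ P ↔ x ∈ EL ∧ L x ∧ dp x x = 8)
    (hLs : ∀ a b, L a → L b → L (a - b)) (hLn : ∀ a, L a → L (-a)) (k : ℕ) :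
    sosSums P k = VE P k := by
  have key : ∀ a b : Vec 8, a ∈ P → b ∈ P → a ≠ b →
      ((a + b ≠ 0 ∧ a + b ∉ P ∧ a - b ∉ P) ↔ dp a b = 0) := by
    intro a b ha hb hab
    obtain ⟨ha1, ha2, ha3⟩ := (hP a).1 ha
    obtain ⟨hb1, hb2, hb3⟩ := (hP b).1 hb
    have e1 := dp_sub_sub a b
    have e2 := SOE_add_add a b
    rw [ha3, hb3] at e1 e2
    constructor
    · rintro ⟨h1, h2, h3⟩
      have h4 := SOE_four a b ha1 hb1
      have n1 := dp_self_nonneg (a - b)
      have n2 := dp_self_nonneg (a + b)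
      have h5 : dp a b ≠ 8 := by
        intro h
        apply hab
        have : a - b = 0 := eq_zero_of_dp (by rw [e1, h]; norm_num)
        exact sub_eq_zero.1 this
      have h6 : dp a b ≠ -8 := by
        intro h
        exact h1 (eq_zero_of_dp (by rw [e2, h]; norm_num))
      have h7 : dp a b ≠ 4 := by
        intro h
        exact h3 ((hP (a - b)).2 ⟨SOE_sub a b ha1 hb1, hLs a b ha2 hb2, by rw [e1, h]; norm_num⟩)
      have h8 : dp a b ≠ -4 := by
        intro h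
        apply h2
        have hs : a + b = a - (-b) := by rw [sub_neg_eq_add]
        refine (hP (a + b)).2 ⟨?_, ?_, by rw [e2, h]; norm_num⟩
        · rw [hs]
          exact SOE_sub a (-b) ha1 (SOE_neg b hb1)
        · rw [hs]
          exact hLs a (-b) ha2 (hLn b hb2)
      omega
    · intro h
      rw [h] at e1 e2
      refine ⟨?_, ?_, ?_⟩
      · intro h0
        rw [h0] at e2
        have : dp (0 : Vec 8) 0 = 0 := by
          unfold dp
          simp
        omega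
      · intro h0
        have := ((hP (a + b)).1 h0).2.2
        omega
      · intro h0
        have := ((hP (a - b)).1 h0).2.2
        omega
  ext x
  constructor
  · rintro ⟨S, hS1, ⟨hS2, hS3⟩, hS4⟩
    exact ⟨S, hS1, hS2, fun a ha b hb hab => (key a b (hS2 a ha) (hS2 b hb) hab).1
      (hS3 a ha b hb hab), hS4⟩
  · rintro ⟨S, hS1, hS2, hS3, hS4⟩
    exact ⟨S, hS1, ⟨hS2, fun a ha b hb hab => (key a b (hS2 a ha) (hS2 b hb) hab).2
      (hS3 a ha b hb hab)⟩, hS4⟩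

theorem SOE : SOE_stmt := by
  intro k
  refine ⟨?_, ?_, ?_⟩
  · apply SOE_gen R8 (fun _ => True)
    · intro x
      show (x ∈ EL ∧ dp x x = 8 * ((1 : ℕ) : ℤ)) ↔ _
      rw [Nat.cast_one, mul_one, true_and]
    · intro a b _ _
      trivial
    · intro a _
      trivial
  · apply SOE_gen R7 (fun x => x 6 + x 7 = 0)
    · intro x
      show (x ∈ EL ∧ x 6 + x 7 = 0 ∧ dp x x = 8 * ((1 : ℕ) : ℤ)) ↔ _
      rw [Nat.cast_one, mul_one]
    · intro a b ha hb
      simp only [Pi.sub_apply]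
      omega
    · intro a ha
      simp only [Pi.neg_apply]
      omega
  · apply SOE_gen R6 (fun x => x 6 + x 7 = 0 ∧ x 5 = x 6)
    · intro x
      show (x ∈ EL ∧ x 6 + x 7 = 0 ∧ x 5 = x 6 ∧ dp x x = 8 * ((1 : ℕ) : ℤ)) ↔ _
      rw [Nat.cast_one, mul_one, and_assoc]
    · intro a b ha hb
      simp only [Pi.sub_apply]
      omega
    · intro a ha
      simp only [Pi.neg_apply]
      omega

end Pool.Agent.SOL
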