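import Pool.Agent.helper67.SOL.CNT

set_option autoImplicit false

/-! # The number of vectors of norm `56` in `E_8` (row sol:CE87) -/

namespace Pool.Agent.SOL

open Pool.Agent.helper54.SOG Finset

open scoped BigOperators

/-- odd entries -/
def CE87_O : List ℤ := [-7, -5, -3, -1, 1, 3, 5, 7]

/-- numbers of even vectors of length two (square sum `4 q`) -/
def CE87_E2 : List (List ℕ) := [
  [1, 0, 0, 0], [0, 0, 4, 0], [4, 0, 0, 0], [0, 0, 0, 0], [4, 0, 0, 0],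
  [0, 0, 8, 0], [0, 0, 0, 0], [0, 0, 0, 0], [4, 0, 0, 0], [0, 0, 4, 0],
  [8, 0, 0, 0], [0, 0, 0, 0], [0, 0, 0, 0], [0, 0, 8, 0], [0, 0, 0, 0]]

/-- numbers of even vectors of length four -/
def CE87_E4 : List (List ℕ) := [
  [1, 0, 0, 0], [0, 0, 8, 0], [24, 0, 0, 0], [0, 0, 32, 0], [24, 0, 0, 0],
  [0, 0, 48, 0], [96, 0, 0, 0], [0, 0, 64, 0], [24, 0, 0, 0], [0, 0, 104, 0],
  [144, 0, 0, 0], [0, 0, 96, 0], [96, 0, 0, 0], [0, 0, 112, 0], [192, 0, 0, 0]]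

/-- numbers of even vectors of length six -/
def CE87_E6 : List (List ℕ) := [
  [1, 0, 0, 0], [0, 0, 12, 0], [60, 0, 0, 0], [0, 0, 160, 0], [252, 0, 0, 0],
  [0, 0, 312, 0], [544, 0, 0, 0], [0, 0, 960, 0], [1020, 0, 0, 0], [0, 0, 876, 0],
  [1560, 0, 0, 0], [0, 0, 2400, 0], [2080, 0, 0, 0], [0, 0, 2040, 0], [3264, 0, 0, 0]]

/-- numbers of odd vectors of length two (square sum `8 q + 2`) -/
def CE87_O2 : List (List ℕ) := [
  [2, 0, 2, 0], [4, 0, 4, 0], [2, 0, 2, 0], [4, 0, 4, 0],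
  [4, 0, 4, 0], [0, 0, 0, 0], [6, 0, 6, 0], [0, 0, 0, 0]]

/-- numbers of odd vectors of length four (square sum `8 q + 4`) -/
def CE87_O4 : List (List ℕ) := [
  [8, 0, 8, 0], [32, 0, 32, 0], [48, 0, 48, 0], [64, 0, 64, 0],
  [104, 0, 104, 0], [96, 0, 96, 0], [112, 0, 112, 0], [0, 0, 0, 0]]

/-- numbers of odd vectors of length six (square sum `8 q + 6`) -/
def CE87_O6 : List (List ℕ) := [
  [32, 0, 32, 0], [192, 0, 192, 0], [480, 0, 480, 0], [832, 0, 832, 0],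
  [1440, 0, 1440, 0], [2112, 0, 2112, 0], [2624, 0, 2624, 0], [0, 0, 0, 0]]

/-- table lookup -/
def CE87_L (d : ℕ) (t : List (List ℕ)) (m c : ℕ) : ℕ := (t.getD (m / d) []).getD c 0

theorem CE87_congr (J : List ℤ) (f g : ℕ → ℕ → ℕ) (P : ℕ → ℕ → ℕ → Prop)
    (hP : ∀ n m c, P (n + 1) m c → ∀ j ∈ J, j.natAbs * j.natAbs ≤ m →
      P n (m - j.natAbs * j.natAbs) ((c + (j % 4).toNat) % 4))
    (h : ∀ m c, P 0 m c → f m c = g m c) (n : ℕ) :
    ∀ m c, P n m c → cntG J f n m c = cntG J g n m c := by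
  induction n with
  | zero => exact h
  | succ n ih =>
    intro m c hm
    show (J.map fun j => if j.natAbs * j.natAbs ≤ m then
      cntG J f n (m - j.natAbs * j.natAbs) ((c + (j % 4).toNat) % 4) else 0).sum =
      (J.map fun j => if j.natAbs * j.natAbs ≤ m then
      cntG J g n (m - j.natAbs * j.natAbs) ((c + (j % 4).toNat) % 4) else 0).sum
    congr 1
    refine List.map_congr_left fun j hj => ?_
    split_ifs with h1
    · exact ih _ _ (hP n m c hm j hj h1)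
    · rfl

/-- the even vectors -/
def CE87_PE (_ m c : ℕ) : Prop := m < 57 ∧ m % 4 = 0 ∧ c < 4 ∧ c % 2 = 0

/-- the odd vectors -/
def CE87_PO (a n m c : ℕ) : Prop := m < 57 ∧ m % 8 = (n + a) % 8 ∧ c < 4 ∧ c % 2 = (n + a) % 2

theorem CE87_hPE (n m c : ℕ) (h : CE87_PE (n + 1) m c) (j : ℤ) (hj : j ∈ cntE)
    (hm : j.natAbs * j.natAbs ≤ m) :
    CE87_PE n (m - j.natAbs * j.natAbs) ((c + (j % 4).toNat) % 4) := by
  obtain ⟨h1, h2, h3, h4⟩ := h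
  simp only [cntE, List.mem_cons, List.not_mem_nil, or_false] at hj
  rcases hj with rfl | rfl | rfl | rfl | rfl | rfl | rfl <;>
    norm_num at hm ⊢ <;> refine ⟨?_, ?_, ?_, ?_⟩ <;> omega

theorem CE87_hPO (a n m c : ℕ) (h : CE87_PO a (n + 1) m c) (j : ℤ) (hj : j ∈ CE87_O)
    (hm : j.natAbs * j.natAbs ≤ m) :
    CE87_PO a n (m - j.natAbs * j.natAbs) ((c + (j % 4).toNat) % 4) := by
  obtain ⟨h1, h2, h3, h4⟩ := h
  simp only [CE87_O, List.mem_cons, List.not_mem_nil, or_false] at hj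
  rcases hj with rfl | rfl | rfl | rfl | rfl | rfl | rfl | rfl <;>
    norm_num at hm ⊢ <;> refine ⟨?_, ?_, ?_, ?_⟩ <;> omega

theorem CE87_e2 : ∀ m < 57, m % 4 = 0 → ∀ c < 4, c % 2 = 0 →
    cntG cntE cntD 2 m c = CE87_L 4 CE87_E2 m c := by
  decide +kernel

theorem CE87_e4 : ∀ m < 57, m % 4 = 0 → ∀ c < 4, c % 2 = 0 →
    cntG cntE (CE87_L 4 CE87_E2) 2 m c = CE87_L 4 CE87_E4 m c := by
  decide +kernel

theorem CE87_e6 : ∀ m < 57, m % 4 = 0 → ∀ c < 4, c % 2 = 0 →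
    cntG cntE (CE87_L 4 CE87_E4) 2 m c = CE87_L 4 CE87_E6 m c := by
  decide +kernel

theorem CE87_o2 : ∀ m < 57, m % 8 = 2 → ∀ c < 4, c % 2 = 0 →
    cntG CE87_O cntD 2 m c = CE87_L 8 CE87_O2 m c := by
  decide +kernel

theorem CE87_o4 : ∀ m < 57, m % 8 = 4 → ∀ c < 4, c % 2 = 0 →
    cntG CE87_O (CE87_L 8 CE87_O2) 2 m c = CE87_L 8 CE87_O4 m c := by
  decide +kernel

theorem CE87_o6 : ∀ m < 57, m % 8 = 6 → ∀ c < 4, c % 2 = 0 →
    cntG CE87_O (CE87_L 8 CE87_O4) 2 m c = CE87_L 8 CE87_O6 m c := by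
  decide +kernel

theorem CE87_E4' (m c : ℕ) (h : CE87_PE 0 m c) :
    cntG cntE cntD 4 m c = CE87_L 4 CE87_E4 m c := by
  rw [show (4 : ℕ) = 2 + 2 from rfl, cntG_add]
  rw [CE87_congr cntE (cntG cntE cntD 2) (CE87_L 4 CE87_E2) CE87_PE CE87_hPE
    (fun m c h => CE87_e2 m h.1 h.2.1 c h.2.2.1 h.2.2.2) 2 m c h]
  exact CE87_e4 m h.1 h.2.1 c h.2.2.1 h.2.2.2

theorem CE87_E6' (m c : ℕ) (h : CE87_PE 0 m c) :
    cntG cntE cntD 6 m c = CE87_L 4 CE87_E6 m c := by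
  rw [show (6 : ℕ) = 4 + 2 from rfl, cntG_add]
  rw [CE87_congr cntE (cntG cntE cntD 4) (CE87_L 4 CE87_E4) CE87_PE CE87_hPE
    CE87_E4' 2 m c h]
  exact CE87_e6 m h.1 h.2.1 c h.2.2.1 h.2.2.2

theorem CE87_e8 : cntG cntE cntD 8 56 0 = cntG cntE (CE87_L 4 CE87_E6) 2 56 0 := by
  rw [show (8 : ℕ) = 6 + 2 from rfl, cntG_add]
  exact CE87_congr cntE (cntG cntE cntD 6) (CE87_L 4 CE87_E6) CE87_PE CE87_hPE
    CE87_E6' 2 56 0 ⟨by norm_num, by norm_num, by norm_num, by norm_num⟩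

theorem CE87_O4' (m c : ℕ) (h : CE87_PO 4 0 m c) :
    cntG CE87_O cntD 4 m c = CE87_L 8 CE87_O4 m c := by
  obtain ⟨h1, h2, h3, h4⟩ := h
  rw [show (4 : ℕ) = 2 + 2 from rfl, cntG_add]
  rw [CE87_congr CE87_O (cntG CE87_O cntD 2) (CE87_L 8 CE87_O2) (CE87_PO 2) (CE87_hPO 2)
    (fun m c h => CE87_o2 m h.1 h.2.1 c h.2.2.1 h.2.2.2) 2 m c ⟨h1, h2, h3, h4⟩]
  exact CE87_o4 m h1 h2 c h3 h4

theorem CE87_O6' (m c : ℕ) (h : CE87_PO 6 0 m c) :
    cntG CE87_O cntD 6 m c = CE87_L 8 CE87_O6 m c := by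
  obtain ⟨h1, h2, h3, h4⟩ := h
  rw [show (6 : ℕ) = 4 + 2 from rfl, cntG_add]
  rw [CE87_congr CE87_O (cntG CE87_O cntD 4) (CE87_L 8 CE87_O4) (CE87_PO 4) (CE87_hPO 4)
    CE87_O4' 2 m c ⟨h1, h2, h3, h4⟩]
  exact CE87_o6 m h1 h2 c h3 h4

theorem CE87_o8 : cntG CE87_O cntD 8 56 0 = cntG CE87_O (CE87_L 8 CE87_O6) 2 56 0 := by
  rw [show (8 : ℕ) = 6 + 2 from rfl, cntG_add]
  exact CE87_congr CE87_O (cntG CE87_O cntD 6) (CE87_L 8 CE87_O6) (CE87_PO 6) (CE87_hPO 6)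
    CE87_O6' 2 56 0 ⟨by norm_num, by norm_num, by norm_num, by norm_num⟩

theorem CE87_memE {a : ℤ} (h : a * a ≤ 56) (h2 : a % 2 = 0) : a ∈ cntE := by
  have h1 : a ≤ 7 := by nlinarith
  have h3 : -7 ≤ a := by nlinarith
  simp only [cntE, List.mem_cons, List.not_mem_nil, or_false]
  omega

theorem CE87_memO {a : ℤ} (h : a * a ≤ 56) (h2 : a % 2 = 1) : a ∈ CE87_O := by
  have h1 : a ≤ 7 := by nlinarith
  have h3 : -7 ≤ a := by nlinarith
  simp only [CE87_O, List.mem_cons, List.not_mem_nil, or_false]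
  omega

theorem CE87_ofO {a : ℤ} (h : a ∈ CE87_O) : a % 2 = 1 := by
  simp only [CE87_O, List.mem_cons, List.not_mem_nil, or_false] at h
  omega

theorem CE87_eq : XE8 7 =
    ((cntF cntE 8 ((56 : ℕ) : ℤ) ((0 : ℕ) : ℤ) ∪ cntF CE87_O 8 ((56 : ℕ) : ℤ) ((0 : ℕ) : ℤ) :
      Finset (Fin 8 → ℤ)) : Set (Fin 8 → ℤ)) := by
  ext x
  rw [Finset.mem_coe, Finset.mem_union, mem_cntF, mem_cntF]
  constructor
  · rintro ⟨⟨h1, h2⟩, h3⟩
    have h3' : ∑ i, x i * x i = ((56 : ℕ) : ℤ) := by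
      rw [← dp, h3]
      norm_num
    have hle : ∀ i, x i * x i ≤ 56 := by
      intro i
      have : x i * x i ≤ ∑ i, x i * x i :=
        Finset.single_le_sum (f := fun i => x i * x i) (fun i _ => mul_self_nonneg _)
          (Finset.mem_univ i)
      rw [h3'] at this
      push_cast at this
      linarith
    have h4 : (∑ i, x i + ((0 : ℕ) : ℤ)) % 4 = 0 := by
      push_cast
      rw [add_zero]
      exact h2
    rcases Int.emod_two_eq_zero_or_one (x 0) with h0 | h0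
    · left
      exact ⟨fun i => CE87_memE (hle i) ((h1 i 0).trans h0), h3', h4⟩
    · right
      exact ⟨fun i => CE87_memO (hle i) ((h1 i 0).trans h0), h3', h4⟩
  · rintro (⟨h1, h2, h3⟩ | ⟨h1, h2, h3⟩)
    · refine ⟨⟨fun i j => ?_, ?_⟩, ?_⟩
      · rw [of_mem_cntE (h1 i), of_mem_cntE (h1 j)]
      · push_cast at h3
        rwa [add_zero] at h3
      · rw [dp, h2]
        norm_num
    · refine ⟨⟨fun i j => ?_, ?_⟩, ?_⟩
      · rw [CE87_ofO (h1 i), CE87_ofO (h1 j)]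
      · push_cast at h3
        rwa [add_zero] at h3
      · rw [dp, h2]
        norm_num

theorem CE87_ve : cntG cntE (CE87_L 4 CE87_E6) 2 56 0 = 38528 := by
  decide +kernel

theorem CE87_vo : cntG CE87_O (CE87_L 8 CE87_O6) 2 56 0 = 44032 := by
  decide +kernel

theorem CE87_ce : (cntF cntE 8 ((56 : ℕ) : ℤ) ((0 : ℕ) : ℤ)).card = 38528 :=
  (cnt_card cntE (by decide) 8 56 0).trans (CE87_e8.trans CE87_ve)

theorem CE87_co : (cntF CE87_O 8 ((56 : ℕ) : ℤ) ((0 : ℕ) : ℤ)).card = 44032 :=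
  (cnt_card CE87_O (by decide) 8 56 0).trans (CE87_o8.trans CE87_vo)

theorem CE87 : (XE8 7).ncard = 82560 := by
  have hd : Disjoint (cntF cntE 8 ((56 : ℕ) : ℤ) ((0 : ℕ) : ℤ))
      (cntF CE87_O 8 ((56 : ℕ) : ℤ) ((0 : ℕ) : ℤ)) := by
    rw [Finset.disjoint_left]
    intro x hx hy
    rw [mem_cntF] at hx hy
    have h1 := of_mem_cntE (hx.1 0)
    have h2 := CE87_ofO (hy.1 0)
    omega
  rw [CE87_eq, Set.ncard_coe_finset]
  exact (Finset.card_union_of_disjoint hd).trans (congrArg₂ (fun a b : ℕ => a + b) CE87_ce CE87_co)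

end Pool.Agent.SOL
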