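import Pool.Agent.helper20.SOL.SpecP

set_option autoImplicit false

namespace Pool.Agent.SOL

open Finset

open scoped BigOperators

theorem NSB (hBTY : BTY_stmt) (hBDN : BDN_stmt) (hSHB : SHB_stmt) (hPB : PB_stmt) : NSB_stmt := by
  intro n k hk
  have hSy : Sy (VB n k) := (hBTY.2.2.2.2.2.2.1 n k hk).1
  have hneg : ∀ x ∈ EvB n k, -x ∈ EvB n k := by
    rintro x ⟨⟨hx, y, hy, hxy⟩, h2⟩
    refine ⟨⟨hSy.neg x hx, -y, hSy.neg y hy, ?_⟩, ?_⟩
    · have h := hSy.neg _ hxy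
      have e : -x - -y = -(x - y) := by abel
      rw [e]
      exact h
    · rw [dp_neg_neg]
      exact h2
  refine ⟨?_, ?_, hneg, ?_, ?_, ?_⟩
  · rintro x ⟨⟨hx, _⟩, h2⟩
    exact (hBDN.2 n k x).2 ⟨hx, h2⟩
  · rintro x ⟨hx, y, hy, hxy⟩
    obtain ⟨h1, h2⟩ := (hBDN.2 n k x).1 hx
    exact ⟨⟨h1, y, ((hBDN.2 n k y).1 hy).1, ((hBDN.2 n k _).1 hxy).1⟩, h2⟩
  · rintro x ⟨⟨hx, _⟩, h2⟩ y ⟨⟨hy, _⟩, h4⟩ hxy
    refine ⟨⟨hxy, x, hx, ?_⟩, ?_⟩
    · have e : x - y - x = -y := by abel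
      rw [e]
      exact hSy.neg y hy
    · exact (hSHB n k x y hk hx hy hxy).1.2 ⟨fun _ => h4, fun _ => h2⟩
  · intro hG
    ext x
    constructor
    · rintro ⟨hx, he⟩
      refine ⟨hx, ?_⟩
      rcases hx.1.2.1 with h | h
      · exact h
      · exfalso
        obtain ⟨y, hy⟩ := hPB n k x hG hx h
        exact he y hy
    · rintro ⟨hx, h2⟩
      refine ⟨hx, ?_⟩
      rintro y ⟨h3, h4, h5, h6⟩
      have h7 := (hSHB n k x y hk h3 h4 h5).2.2.2 (Or.inl h2)
      rw [h6] at h7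
      exact h7
  · exact
      { pos := hk
        rpos := by norm_num
        neg := hneg
        norm := fun x hx => by
          rw [hx.2]
          norm_num
        diff := fun a ha b hb => by
          rw [dp_sub_sub, ha.2, hb.2]
          exact ⟨k - dp a b + k, by push_cast; ring⟩
        rank := ⟨⊤, fun _ _ => Submodule.mem_top, by
          rw [finrank_top, Module.finrank_fin_fun]⟩ }

end Pool.Agent.SOL
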